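import Pool.Agent.J6H54.CH.Stm

/-!
# Module CH-26 of project CH: the classes of exponent `0` have a bounded contribution
-/

set_option autoImplicit false

namespace Pool.Agent.J6H26.CH26

open Pool.Agent.J6H54.CH Finset

variable {Λ : Type} [AddCommGroup Λ] {σ : Λ ≃ₗ[ℤ] Λ} {T : Finset (Λ × ℤ)} {p q : Λ → ℝ}
  {κ M C0 : ℝ} {R : ℕ}

/-- the element with the digits `x` exactly at the places `g * i`, `i ∈ J` -/
def kJ (σ : Λ ≃ₗ[ℤ] Λ) (g : ℕ) (x : Λ) (J : Finset ℕ) : Λ :=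
  ∑ i ∈ J, (σ ^ ((g * i : ℕ) : ℤ)) x

theorem geo_inj {r : ℝ} (h0 : 0 < r) (h1 : r < 1) (J : Finset ℕ) (e : ℕ → ℕ)
    (he : Set.InjOn e (J : Set ℕ)) : ∑ i ∈ J, r ^ e i ≤ (1 - r)⁻¹ := by
  classical
  rw [← Finset.sum_image (f := fun m => r ^ m) he, ← tsum_geometric_of_lt_one h0.le h1]
  exact (summable_geometric_of_lt_one h0.le h1).sum_le_tsum _ (fun _ _ => by positivity)

theorem geo_div {r : ℝ} (h0 : 0 < r) (h1 : r < 1) (g : ℕ) (hg : 1 ≤ g) (S : Finset ℕ) :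
    ∑ h ∈ S, r ^ (h / g) ≤ g * (1 - r)⁻¹ := by
  classical
  have hinj : Set.InjOn (fun h : ℕ => (h / g, h % g)) (S : Set ℕ) := by
    intro a _ b _ hab
    simp only [Prod.mk.injEq] at hab
    rw [← Nat.div_add_mod a g, ← Nat.div_add_mod b g, hab.1, hab.2]
  have h2 : ∑ h ∈ S, r ^ (h / g) = ∑ s ∈ S.image (fun h : ℕ => (h / g, h % g)), r ^ s.1 := by
    rw [Finset.sum_image hinj]
  rw [h2]
  calc ∑ s ∈ S.image (fun h : ℕ => (h / g, h % g)), r ^ s.1
      ≤ ∑ s ∈ (S.image (fun h : ℕ => h / g)) ×ˢ range g, r ^ s.1 := by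
        refine Finset.sum_le_sum_of_subset_of_nonneg ?_ (fun s _ _ => by positivity)
        intro s hs
        obtain ⟨h, hh, rfl⟩ := Finset.mem_image.1 hs
        rw [Finset.mem_product]
        exact ⟨Finset.mem_image_of_mem _ hh, Finset.mem_range.2 (Nat.mod_lt _ (by omega))⟩
    _ = ∑ m ∈ S.image (fun h : ℕ => h / g), (g : ℝ) * r ^ m := by
        rw [Finset.sum_product]
        refine Finset.sum_congr rfl fun m _ => ?_
        simp
    _ = g * ∑ m ∈ S.image (fun h : ℕ => h / g), r ^ m := by rw [Finset.mul_sum]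
    _ ≤ g * (1 - r)⁻¹ := by
        refine mul_le_mul_of_nonneg_left ?_ (by positivity)
        exact geo_inj h0 h1 _ (fun m => m) (fun a _ b _ h => h)

theorem p_sum (H : Hyp σ p q κ M C0) (J : Finset ℕ) (f : ℕ → Λ) :
    p (∑ i ∈ J, f i) ≤ ∑ i ∈ J, p (f i) := by
  classical
  induction J using Finset.induction_on with
  | empty => simp [H.p_zero]
  | @insert i J hi ih =>
    rw [Finset.sum_insert hi, Finset.sum_insert hi]
    exact (H.p_add _ _).trans (by linarith)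

theorem q_sum (H : Hyp σ p q κ M C0) (J : Finset ℕ) (f : ℕ → Λ) :
    q (∑ i ∈ J, f i) ≤ ∑ i ∈ J, q (f i) := by
  classical
  induction J using Finset.induction_on with
  | empty => simp [H.q_zero]
  | @insert i J hi ih =>
    rw [Finset.sum_insert hi, Finset.sum_insert hi]
    exact (H.q_add _ _).trans (by linarith)

/-- all `g * i` with `i < h / g` are below `h` -/
theorem gi_le {g h i : ℕ} (hi : i ∈ range (h / g)) : g * i ≤ h := by
  have h1 : i ≤ h / g := (Finset.mem_range.1 hi).le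
  exact (Nat.mul_le_mul_left g h1).trans (Nat.mul_div_le h g)

theorem q_kJ (H : Hyp σ p q κ M C0) (g : ℕ) (hg : 1 ≤ g) (x : Λ) (J : Finset ℕ) :
    q (kJ σ g x J) ≤ q x * (1 - κ)⁻¹ := by
  unfold kJ
  refine (q_sum H J _).trans ?_
  calc ∑ i ∈ J, q ((σ ^ ((g * i : ℕ) : ℤ)) x) ≤ ∑ i ∈ J, q x * κ ^ (g * i) := by
        refine Finset.sum_le_sum fun i _ => ?_
        rw [mul_comm (q x)]
        exact H.q_pow (g * i) x
    _ = q x * ∑ i ∈ J, κ ^ (g * i) := by rw [Finset.mul_sum]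
    _ ≤ q x * (1 - κ)⁻¹ := by
        refine mul_le_mul_of_nonneg_left ?_ (H.q_nonneg x)
        refine geo_inj H.κ_pos H.κ_lt J (fun i => g * i) ?_
        intro a _ b _ hab
        exact Nat.eq_of_mul_eq_mul_left (by omega) hab

theorem p_kJ (H : Hyp σ p q κ M C0) (g h : ℕ) (hg : 1 ≤ g) (x : Λ) (J : Finset ℕ)
    (hJ : J ⊆ range (h / g)) : p ((σ ^ (-(h : ℤ))) (kJ σ g x J)) ≤ p x * (1 - κ)⁻¹ := by
  unfold kJ
  rw [map_sum]
  refine (p_sum H J _).trans ?_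
  calc ∑ i ∈ J, p ((σ ^ (-(h : ℤ))) ((σ ^ ((g * i : ℕ) : ℤ)) x))
      ≤ ∑ i ∈ J, p x * κ ^ (h - g * i) := by
        refine Finset.sum_le_sum fun i hi => ?_
        have h1 := gi_le (hJ hi)
        rw [← pow_add_apply]
        have h2 : (-(h : ℤ) + ((g * i : ℕ) : ℤ)) = -((h - g * i : ℕ) : ℤ) := by
          rw [Nat.cast_sub h1]
          ring
        rw [h2, mul_comm (p x)]
        exact H.p_pow (h - g * i) x
    _ = p x * ∑ i ∈ J, κ ^ (h - g * i) := by rw [Finset.mul_sum]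
    _ ≤ p x * (1 - κ)⁻¹ := by
        refine mul_le_mul_of_nonneg_left ?_ (H.p_nonneg x)
        refine geo_inj H.κ_pos H.κ_lt J (fun i => h - g * i) ?_
        intro a ha b hb hab
        have h1 := gi_le (hJ ha)
        have h2 := gi_le (hJ hb)
        simp only at hab
        have h3 : g * a = g * b := by omega
        exact Nat.eq_of_mul_eq_mul_left (by omega) h3

theorem len_kJ (h24 : S_insert) (hT : Gen σ T) (hB : Bd σ T p q R) (g h : ℕ) (x v : Λ)
    (J : Finset ℕ) : J ⊆ range (h / g) →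
    len σ T (v + kJ σ g x J, (h : ℤ)) ≤
      len σ T (v, (h : ℤ)) + (2 * R * R + len σ T (x, 0)) * J.card := by
  classical
  induction J using Finset.induction_on with
  | empty => intro _; simp [kJ]
  | @insert i J hi ih =>
    intro hJ
    have hJ' : J ⊆ range (h / g) := fun j hj => hJ (Finset.mem_insert_of_mem hj)
    have hiH : g * i ≤ h := gi_le (hJ (Finset.mem_insert_self i J))
    have h1 := ih hJ'
    have h2 := h24 Λ σ T p q R hT hB (g * i) h (v + kJ σ g x J) x hiH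
    have h3 : v + kJ σ g x (insert i J) = v + kJ σ g x J + (σ ^ ((g * i : ℕ) : ℤ)) x := by
      unfold kJ
      rw [Finset.sum_insert hi]
      abel
    rw [h3, Finset.card_insert_of_notMem hi]
    have h4 : (2 * R * R + len σ T (x, 0)) * (J.card + 1) =
        (2 * R * R + len σ T (x, 0)) * J.card + (2 * R * R + len σ T (x, 0)) := by
      ring
    rw [h4]
    omega

theorem A_le_b {C : ℝ} {C' : ℕ} {a b ρ : ℝ} (hR : 1 ≤ R) (hr : Rad σ T p q C R C' a b ρ) (z : ℝ)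
    (hz0 : 0 < z) (hz : z ≤ ρ) (h : ℕ) : A σ T p q C h z ≤ b := by
  have hρ := hr.pos
  have h0 : 0 < z / ρ := div_pos hz0 hρ
  have h1 : z / ρ ≤ 1 := (div_le_one hρ).2 hz
  set t : ℝ := (z / ρ) ^ ((R : ℝ)⁻¹) with ht
  have ht0 : 0 < t := Real.rpow_pos_of_pos h0 _
  have ht1 : t ≤ 1 := Real.rpow_le_one h0.le h1 (by positivity)
  have htR : t ^ R = z / ρ := Real.rpow_inv_natCast_pow h0.le (by omega)
  have h2 := hr.le t ht0 ht1 h
  have h3 : ρ * t ^ R = z := by rw [htR]; field_simp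
  rw [h3] at h2
  refine h2.trans ?_
  calc b * t ^ h ≤ b * 1 := mul_le_mul_of_nonneg_left (pow_le_one₀ ht0.le ht1) hr.b_pos.le
    _ = b := mul_one b

/-- the contribution of the classes with a fixed peak -/
theorem peak_sum (h16 : S_cj) (h24 : S_insert) (H : Hyp σ p q κ M C0) (hT : Gen σ T)
    (hB : Bd σ T p q R) (g : ℕ) (hg : 1 ≤ g) (x0 : Λ)
    (hinj0 : Function.Injective (fun J : Finset ℕ => kJ σ g x0 J))
    (C1 B0 z : ℝ) (hz0 : 0 < z) (hz1 : z ≤ 1) (h : ℕ)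
    (hA : A σ T p q (C1 + (p x0 + q x0) * (1 - κ)⁻¹) h z ≤ B0)
    (X : Finset Λ) (hX : NC σ 0 X) (v1 v2 : Λ → Λ) (e : Λ → ℤ)
    (hv : ∀ x ∈ X, v1 x - v2 x = (σ ^ e x) x ∧
      clen σ T (x, 0) = len σ T (v1 x, (h : ℤ)) + len σ T (v2 x, (h : ℤ)) ∧
      v1 x ∈ bx σ p q C1 h ∧ v2 x ∈ bx σ p q C1 h) :
    (∑ x ∈ X, z ^ clen σ T (x, (0 : ℤ))) * (1 + z ^ (2 * (2 * R * R + len σ T (x0, 0)))) ^ (h / g) ≤
      B0 ^ 2 := by
  classical
  set c : ℕ := 2 * R * R + len σ T (x0, 0) with hc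
  set S : Finset (Λ × Finset ℕ) := X ×ˢ (range (h / g)).powerset with hS
  set C2 : ℝ := (p x0 + q x0) * (1 - κ)⁻¹ with hC2
  set V : Finset Λ := bx σ p q (C1 + C2) h with hV
  have hκ : 0 < (1 - κ)⁻¹ := inv_pos.2 (by linarith [H.κ_lt])
  -- the bounds on the elements
  have hbd : ∀ (v : Λ) (J : Finset ℕ), J ⊆ range (h / g) → v ∈ bx σ p q C1 h →
      v + kJ σ g x0 J ∈ V := by
    intro v J hJ hvb
    rw [mem_bx H] at hvb
    rw [hV, mem_bx H, map_add]
    have h1 := q_kJ H g hg x0 J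
    have h2 := p_kJ H g h hg x0 J hJ
    have h3 : q x0 * (1 - κ)⁻¹ ≤ C2 := by
      rw [hC2, add_mul]
      have := mul_nonneg (H.p_nonneg x0) hκ.le
      linarith
    have h4 : p x0 * (1 - κ)⁻¹ ≤ C2 := by
      rw [hC2, add_mul]
      have := mul_nonneg (H.q_nonneg x0) hκ.le
      linarith
    exact ⟨(H.q_add _ _).trans (by linarith [hvb.1]), (H.p_add _ _).trans (by linarith [hvb.2])⟩
  have hsV : ∑ v ∈ V, z ^ len σ T (v, (h : ℤ)) ≤ B0 := hA
  have hsV0 : 0 ≤ ∑ v ∈ V, z ^ len σ T (v, (h : ℤ)) :=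
    Finset.sum_nonneg (fun v _ => by positivity)
  -- the injective map
  set f : Λ × Finset ℕ → Λ × Λ := fun s => (v1 s.1 + kJ σ g x0 s.2, v2 s.1 + kJ σ g x0 s.2)
    with hf
  have hfinj : Set.InjOn f (S : Set (Λ × Finset ℕ)) := by
    rintro ⟨x, J⟩ hx ⟨y, J'⟩ hy hxy
    rw [Finset.mem_coe, hS, Finset.mem_product] at hx hy
    simp only [hf, Prod.mk.injEq] at hxy
    obtain ⟨h1, h2⟩ := hxy
    have hx1 := (hv x hx.1).1
    have hy1 := (hv y hy.1).1
    have h3 : (σ ^ e x) x = (σ ^ e y) y := by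
      rw [← hx1, ← hy1]
      have h4 : v1 x - v2 x = (v1 x + kJ σ g x0 J) - (v2 x + kJ σ g x0 J) := by abel
      have h5 : v1 y - v2 y = (v1 y + kJ σ g x0 J') - (v2 y + kJ σ g x0 J') := by abel
      rw [h4, h5, h1, h2]
    have h4 : y = (σ ^ (-(e y) + e x)) x := by
      rw [pow_add_apply, h3, pow_neg_pow]
    have h5 : Cj σ (x, 0) (y, 0) :=
      ((h16 Λ σ T hT).2.2.2.2.2.2.2.2.2.2 x y).2 ⟨_, h4⟩
    have h6 : x = y := hX x hx.1 y hy.1 h5
    subst h6
    have h7 : kJ σ g x0 J = kJ σ g x0 J' := add_left_cancel h1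
    rw [hinj0 h7]
  have hfmem : ∀ s ∈ S, f s ∈ V ×ˢ V := by
    intro s hs
    rw [hS, Finset.mem_product, Finset.mem_powerset] at hs
    obtain ⟨-, -, h1, h2⟩ := hv s.1 hs.1
    rw [Finset.mem_product]
    exact ⟨hbd _ _ hs.2 h1, hbd _ _ hs.2 h2⟩
  -- the computation
  have hpow : (1 + z ^ (2 * c)) ^ (h / g) =
      ∑ J ∈ (range (h / g)).powerset, (z ^ (2 * c)) ^ J.card := by
    have := Finset.sum_pow_mul_eq_add_pow (z ^ (2 * c)) (1 : ℝ) (range (h / g))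
    rw [Finset.card_range] at this
    rw [add_comm, ← this]
    simp
  calc (∑ x ∈ X, z ^ clen σ T (x, (0 : ℤ))) * (1 + z ^ (2 * c)) ^ (h / g)
      = ∑ s ∈ S, z ^ clen σ T (s.1, (0 : ℤ)) * (z ^ (2 * c)) ^ s.2.card := by
        rw [hpow, Finset.sum_mul_sum, hS, Finset.sum_product]
    _ ≤ ∑ s ∈ S, z ^ len σ T ((f s).1, (h : ℤ)) * z ^ len σ T ((f s).2, (h : ℤ)) := by
        refine Finset.sum_le_sum (fun s hs => ?_)
        rw [hS, Finset.mem_product, Finset.mem_powerset] at hs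
        obtain ⟨-, h1, -, -⟩ := hv s.1 hs.1
        have h4 := len_kJ h24 hT hB g h x0 (v1 s.1) s.2 hs.2
        have h5 := len_kJ h24 hT hB g h x0 (v2 s.1) s.2 hs.2
        rw [← pow_mul, ← pow_add, ← pow_add]
        refine pow_le_pow_of_le_one hz0.le hz1 ?_
        simp only [hf]
        rw [h1]
        have h6 : 2 * c * s.2.card = c * s.2.card + c * s.2.card := by ring
        rw [h6]
        rw [← hc] at h4 h5
        omega
    _ = ∑ r ∈ S.image f, z ^ len σ T (r.1, (h : ℤ)) * z ^ len σ T (r.2, (h : ℤ)) := by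
        rw [Finset.sum_image hfinj]
    _ ≤ ∑ r ∈ V ×ˢ V, z ^ len σ T (r.1, (h : ℤ)) * z ^ len σ T (r.2, (h : ℤ)) := by
        refine Finset.sum_le_sum_of_subset_of_nonneg ?_ (fun r _ _ => by positivity)
        intro r hr
        obtain ⟨s, hs, rfl⟩ := Finset.mem_image.1 hr
        exact hfmem s hs
    _ = (∑ v ∈ V, z ^ len σ T (v, (h : ℤ))) ^ 2 := by
        rw [sq, Finset.sum_mul_sum, Finset.sum_product]
    _ ≤ B0 ^ 2 := pow_le_pow_left₀ hsV0 hsV 2

theorem m26 (h12 : S_enl) (h16 : S_cj) (h23 : S_peak) (h24 : S_insert) (h25 : S_digit) :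
    S_zero := by
  classical
  intro Λ _ σ T p q κ M C0 C R C' P a b ρ H hT hB hC hr hP
  have hρ := hr.pos
  have hρ1 := hr.lt_one
  obtain ⟨x0, g, hg, hinj0⟩ := h25 Λ σ p q κ M C0 H
  set C1 : ℝ := M * (P * R / (1 - κ)) with hC1
  obtain ⟨b', hb', henl⟩ := h12 Λ σ T p q κ M C0 C (C1 + (p x0 + q x0) * (1 - κ)⁻¹) (ρ / 2) H hT hC
    (by positivity)
  have hpk := h23 Λ σ T p q κ M C0 R P H hT hB hP
  choose Hh w1 w2 ee hdat using hpk
  set c : ℕ := 2 * R * R + len σ T (x0, 0) with hc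
  set r : ℝ := (1 + (ρ / 2) ^ (2 * c))⁻¹ with hrr
  have hd : 0 < (ρ / 2) ^ (2 * c) := by positivity
  have hr0 : 0 < r := by rw [hrr]; positivity
  have hr1 : r < 1 := by
    rw [hrr]
    exact inv_lt_one_of_one_lt₀ (by linarith)
  refine ⟨(b' * b) ^ 2 * (g * (1 - r)⁻¹), ?_⟩
  intro z hz hz' X hX
  have hz0 : 0 < z := by linarith
  have hz1 : z ≤ 1 := by linarith
  -- one peak height
  have hone : ∀ h : ℕ, ∑ x ∈ X.filter (fun x : Λ => Hh x = h),
      z ^ clen σ T (x, (0 : ℤ)) ≤ (b' * b) ^ 2 * r ^ (h / g) := by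
    intro h
    have hAb : A σ T p q (C1 + (p x0 + q x0) * (1 - κ)⁻¹) h z ≤ b' * b :=
      (henl h z hz hz1).trans
        (mul_le_mul_of_nonneg_left (A_le_b hB.one_le hr z hz0 hz' h) hb'.le)
    have h1 := peak_sum h16 h24 H hT hB g hg x0 hinj0 C1 (b' * b) z hz0 hz1 h hAb
      (X.filter (fun x : Λ => Hh x = h))
      (fun x hx y hy hxy => hX x (Finset.mem_filter.1 hx).1 y (Finset.mem_filter.1 hy).1 hxy)
      w1 w2 ee
      (by
        intro x hx
        have h2 := hdat x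
        rw [(Finset.mem_filter.1 hx).2] at h2
        exact h2)
    rw [← hc] at h1
    have h3 : 0 < (1 + z ^ (2 * c)) ^ (h / g) := by positivity
    have h4 : ∑ x ∈ X.filter (fun x : Λ => Hh x = h),
        z ^ clen σ T (x, (0 : ℤ)) ≤ (b' * b) ^ 2 * ((1 + z ^ (2 * c)) ^ (h / g))⁻¹ := by
      rw [← div_eq_mul_inv, le_div_iff₀ h3]
      exact h1
    refine h4.trans (mul_le_mul_of_nonneg_left ?_ (by positivity))
    rw [hrr, inv_pow]
    refine inv_anti₀ (by positivity) ?_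
    refine pow_le_pow_left₀ (by positivity) ?_ (h / g)
    have h5 : (ρ / 2) ^ (2 * c) ≤ z ^ (2 * c) := pow_le_pow_left₀ (by positivity) hz _
    linarith
  have hsplit : ∑ x ∈ X, z ^ clen σ T (x, (0 : ℤ)) =
      ∑ h ∈ X.image Hh, ∑ x ∈ X.filter (fun x : Λ => Hh x = h),
        z ^ clen σ T (x, (0 : ℤ)) := by
    rw [Finset.sum_fiberwise_of_maps_to]
    intro x hx
    exact Finset.mem_image_of_mem _ hx
  rw [hsplit]
  calc ∑ h ∈ X.image Hh, ∑ x ∈ X.filter (fun x : Λ => Hh x = h),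
        z ^ clen σ T (x, (0 : ℤ))
      ≤ ∑ h ∈ X.image Hh, (b' * b) ^ 2 * r ^ (h / g) :=
        Finset.sum_le_sum (fun h _ => hone h)
    _ = (b' * b) ^ 2 * ∑ h ∈ X.image Hh, r ^ (h / g) := by rw [Finset.mul_sum]
    _ ≤ (b' * b) ^ 2 * (g * (1 - r)⁻¹) := by
        refine mul_le_mul_of_nonneg_left ?_ (by positivity)
        exact geo_div hr0 hr1 g hg _

end Pool.Agent.J6H26.CH26
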